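import Pool.Agent.BLP.StmtsE

/-!
# Squad BLP, row E_EGM: nearly optimal target points
-/

namespace Pool.Agent.BLP.H17

open MeasureTheory ProbabilityTheory Filter Topology Finset
open scoped ENNReal

noncomputable section

/-- The algebra of the square roots. -/
theorem egm_alg (c q A η s C K M P Q k y : ℝ) (hc : 0 < c) (hη : 0 < η)
    (hs0 : 0 < s) (hss : s * s = q) (hC : C = A * (s + 1 / s)) (hK0 : 0 < K) (hM0 : 0 < M)
    (hK4 : 2 * c * C ^ 2 ≤ K * (η * s)) (hP : P = K * M - k) (hQ : Q = K * M * q - y)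
    (hk1 : -(A * M) ≤ k) (hk2 : k ≤ A * M) (hy1 : -(A * M) ≤ y) (hy2 : y ≤ A * M)
    (hP1 : K / 2 * M ≤ P) (hP0 : 0 < P) (hQ0 : 0 < Q) :
    0 ≤ c / 2 * (P * s + Q / s) - c * Real.sqrt (P * Q) ∧
      c / 2 * (P * s + Q / s) - c * Real.sqrt (P * Q) ≤ η / 2 * M ∧
      2 * Real.sqrt (P * Q) ≤ P * s + Q / s := by
  set r : ℝ := Real.sqrt s with hr
  have hr0 : 0 < r := Real.sqrt_pos.2 hs0
  have hrr : r * r = s := Real.mul_self_sqrt hs0.le
  set X : ℝ := Real.sqrt P with hX
  set Y : ℝ := Real.sqrt Q with hY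
  have hXX : X * X = P := Real.mul_self_sqrt hP0.le
  have hYY : Y * Y = Q := Real.mul_self_sqrt hQ0.le
  have hX0 : 0 < X := Real.sqrt_pos.2 hP0
  have hY0 : 0 < Y := Real.sqrt_pos.2 hQ0
  have hXY : Real.sqrt (P * Q) = X * Y := Real.sqrt_mul hP0.le Q
  have hsum : P * s + Q / s = (X * r) ^ 2 + (Y / r) ^ 2 := by
    rw [div_pow, mul_pow, pow_two X, pow_two Y, pow_two r, hXX, hYY, hrr]
  have hprod : (X * r) * (Y / r) = X * Y := by
    field_simp
  have hE : P * s + Q / s - 2 * (X * Y) = (X * r - Y / r) ^ 2 := by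
    rw [hsum, ← hprod]
    ring
  have hdiff : (X * r) ^ 2 - (Y / r) ^ 2 = P * s - Q / s := by
    rw [div_pow, mul_pow, pow_two X, pow_two Y, pow_two r, hXX, hYY, hrr]
  have hUV : P * s - Q / s = -k * s + y / s := by
    rw [hP, hQ, ← hss]
    field_simp
    ring
  have habs : |P * s - Q / s| ≤ C * M := by
    rw [hUV, hC, abs_le]
    have h1 : y / s ≤ A * M / s := div_le_div_of_nonneg_right hy2 hs0.le
    have h2 : -(A * M) / s ≤ y / s := div_le_div_of_nonneg_right hy1 hs0.le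
    have h3 : A * (s + 1 / s) * M = A * M * s + A * M / s := by ring
    have h4 : -(A * M) / s = -(A * M / s) := by ring
    rw [h3]
    constructor
    · nlinarith
    · nlinarith
  have hsq : (P * s - Q / s) ^ 2 ≤ (C * M) ^ 2 := by
    rw [← sq_abs (P * s - Q / s)]
    exact pow_le_pow_left₀ (abs_nonneg _) habs 2
  set E : ℝ := (X * r - Y / r) ^ 2 with hEdef
  have hE0 : 0 ≤ E := sq_nonneg _
  have hU : K / 2 * M * s ≤ (X * r + Y / r) ^ 2 := by
    have h1 : 0 < X * r := mul_pos hX0 hr0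
    have h2 : 0 < Y / r := div_pos hY0 hr0
    have h3 : (X * r) ^ 2 = P * s := by
      rw [mul_pow, pow_two X, pow_two r, hXX, hrr]
    have h4 : K / 2 * M * s ≤ P * s := mul_le_mul_of_nonneg_right hP1 hs0.le
    nlinarith [mul_pos h1 h2, sq_nonneg (Y / r)]
  have hEU : E * (K / 2 * M * s) ≤ (C * M) ^ 2 := by
    refine (mul_le_mul_of_nonneg_left hU hE0).trans ?_
    have h1 : E * (X * r + Y / r) ^ 2 = (P * s - Q / s) ^ 2 := by
      rw [hEdef, ← hdiff]
      ring
    rw [h1]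
    exact hsq
  have hE1 : E * (K * s) ≤ 2 * C ^ 2 * M := by
    have h1 : M * (E * (K * s)) ≤ M * (2 * C ^ 2 * M) := by nlinarith
    exact le_of_mul_le_mul_left h1 hM0
  have hE2 : c * E ≤ η * M := by
    have hKs : 0 < K * s := mul_pos hK0 hs0
    have h1 : (K * s) * (c * E) ≤ (K * s) * (η * M) := by
      have h2 : c * (E * (K * s)) ≤ c * (2 * C ^ 2 * M) := mul_le_mul_of_nonneg_left hE1 hc.le
      have h3 : 2 * c * C ^ 2 * M ≤ K * (η * s) * M := mul_le_mul_of_nonneg_right hK4 hM0.le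
      nlinarith
    exact le_of_mul_le_mul_left h1 hKs
  have hD : c / 2 * (P * s + Q / s) - c * Real.sqrt (P * Q) = c / 2 * E := by
    rw [hXY, ← hE]
    ring
  refine ⟨?_, ?_, ?_⟩
  · rw [hD]
    positivity
  · rw [hD]
    linarith
  · rw [hXY]
    linarith

/-- **E_EGM**. -/
theorem e_egm : EgmStmt := by
  intro a c hc ha q A η hq hA hη
  set s : ℝ := Real.sqrt q with hs
  have hs0 : 0 < s := Real.sqrt_pos.2 hq
  have hss : s * s = q := Real.mul_self_sqrt hq.le
  set C : ℝ := A * (s + 1 / s) with hC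
  have hC0 : 0 < C := by positivity
  obtain ⟨K, hK⟩ := exists_nat_ge (max (max 1 (2 * A)) (max (2 * A / q)
    (2 * c * C ^ 2 / (η * s))))
  have hK1 : (1 : ℝ) ≤ K := ((le_max_left _ _).trans (le_max_left _ _)).trans hK
  have hK2 : 2 * A ≤ K := ((le_max_right _ _).trans (le_max_left _ _)).trans hK
  have hK3 : 2 * A ≤ q * K := by
    have h1 : 2 * A / q ≤ K := ((le_max_left _ _).trans (le_max_right _ _)).trans hK
    rw [div_le_iff₀ hq] at h1
    linarith
  have hK4 : 2 * c * C ^ 2 ≤ K * (η * s) := by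
    have h1 : 2 * c * C ^ 2 / (η * s) ≤ K := ((le_max_right _ _).trans (le_max_right _ _)).trans hK
    rwa [div_le_iff₀ (by positivity)] at h1
  have hK0 : (0 : ℝ) < K := by linarith
  set K' : ℝ := (K + A) * s + (K * q + A) / s with hK'
  have hK'0 : 0 < K' := by positivity
  set e : ℝ := min c (η / K') with he
  have he0 : 0 < e := lt_min hc (by positivity)
  obtain ⟨n₀, hn₀⟩ : ∃ n₀ : ℕ, ∀ n ≥ n₀, (c - e) * Real.sqrt n ≤ a n := by
    have h1 : ∀ᶠ n : ℕ in atTop, c - e < a n / Real.sqrt n :=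
      ha.eventually (lt_mem_nhds (by linarith))
    obtain ⟨n₀, hn₀⟩ := eventually_atTop.1 (h1.and (eventually_gt_atTop 0))
    refine ⟨n₀, fun n hn => ?_⟩
    obtain ⟨h2, h3⟩ := hn₀ n hn
    have h4 : 0 < Real.sqrt n := Real.sqrt_pos.2 (by exact_mod_cast h3)
    rw [lt_div_iff₀ h4] at h2
    exact h2.le
  refine ⟨K, 2 * n₀ + 1, by exact_mod_cast hK1, hK2, hK3, ?_⟩
  intro M hM k y hk hy
  have hM1 : (1 : ℝ) ≤ M := by exact_mod_cast (by omega : 1 ≤ M)
  have hM0 : (0 : ℝ) < M := by linarith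
  rw [abs_le] at hk hy
  obtain ⟨hk1, hk2⟩ := hk
  obtain ⟨hy1, hy2⟩ := hy
  set P : ℝ := (K : ℝ) * M - k with hP
  set Q : ℝ := (K : ℝ) * M * q - y with hQ
  have hAM : 0 < A * M := mul_pos hA hM0
  have hKM : 2 * (A * M) ≤ K * M := by nlinarith
  have hqKM : 2 * (A * M) ≤ K * M * q := by nlinarith
  have hP1 : (K : ℝ) / 2 * M ≤ P := by
    rw [hP]
    linarith
  have hP0 : 0 < P := lt_of_lt_of_le (by positivity) hP1
  have hQ0 : 0 < Q := by
    rw [hQ]
    linarith
  have hkK : (k : ℝ) ≤ K * M := by linarith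
  have hyK : y ≤ K * M * q := by linarith
  obtain ⟨h1, h2, h3⟩ := egm_alg c q A η s C K M P Q k y hc hη hs0 hss hC hK0 hM0 hK4 hP hQ
    hk1 hk2 hy1 hy2 hP1 hP0 hQ0
  refine ⟨by exact_mod_cast hkK, hyK, ?_, ?_⟩
  · -- the third inequality
    have hN : 0 ≤ (K : ℤ) * M - k := by
      have : (k : ℤ) ≤ K * M := by exact_mod_cast hkK
      linarith
    set n : ℕ := ((K : ℤ) * M - k + 1).toNat with hn
    have hnP : (n : ℝ) = P + 1 := by
      have h4 : ((n : ℤ) : ℝ) = (((K : ℤ) * M - k + 1 : ℤ) : ℝ) := by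
        rw [hn, Int.toNat_of_nonneg (by linarith)]
      rw [Int.cast_natCast] at h4
      rw [h4, hP]
      push_cast
      ring
    have hnn : n₀ ≤ n := by
      have h4 : (2 * n₀ + 1 : ℝ) ≤ M := by exact_mod_cast hM
      have h5 : (M : ℝ) / 2 ≤ P := by nlinarith
      have h6 : (n₀ : ℝ) ≤ n := by
        rw [hnP]
        linarith
      exact_mod_cast h6
    have hce : 0 ≤ c - e := by
      have := min_le_left c (η / K')
      rw [← he] at this
      linarith
    have h4 : (c - e) * Real.sqrt P ≤ a n := by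
      refine le_trans ?_ (hn₀ n hnn)
      refine mul_le_mul_of_nonneg_left (Real.sqrt_le_sqrt ?_) hce
      rw [hnP]
      linarith
    have h5 : (c - e) * Real.sqrt (P * Q) ≤ a n * Real.sqrt Q := by
      rw [Real.sqrt_mul hP0.le, ← mul_assoc]
      exact mul_le_mul_of_nonneg_right h4 (Real.sqrt_nonneg _)
    have h6 : P * s + Q / s ≤ K' * M := by
      have h7 : P * s ≤ (K + A) * M * s := by
        refine mul_le_mul_of_nonneg_right ?_ hs0.le
        rw [hP]
        linarith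
      have h8 : Q / s ≤ (K * q + A) * M / s := by
        refine div_le_div_of_nonneg_right ?_ hs0.le
        rw [hQ]
        linarith
      have h9 : K' * M = (K + A) * M * s + (K * q + A) * M / s := by
        rw [hK']
        ring
      rw [h9]
      linarith
    have h7 : e * K' ≤ η := by
      have h8 : e ≤ η / K' := min_le_right _ _
      rwa [le_div_iff₀ hK'0] at h8
    have h8 : e * (2 * Real.sqrt (P * Q)) ≤ η * M := by
      have h9 : 2 * Real.sqrt (P * Q) ≤ K' * M := h3.trans h6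
      have h10 := mul_le_mul_of_nonneg_left h9 he0.le
      have h11 := mul_le_mul_of_nonneg_right h7 hM0.le
      nlinarith
    nlinarith
  · rw [abs_le]
    constructor
    · have : 0 < η * M := mul_pos hη hM0
      linarith
    · have : 0 < η * M := mul_pos hη hM0
      linarith

end

end Pool.Agent.BLP.H17
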